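import Pool.Agent.Helper65.KH.Goals

/-!
# Project KH (MP_20ee5e_ag), packet F2: the lower bound by the covolume
-/

set_option autoImplicit false

open MvPolynomial MeasureTheory Filter Topology
open scoped Pointwise
open Pool.Agent.Helper65.KH

namespace Pool.Agent.Helper46.KH

/-- the polynomials all of whose exponents, divided by `k + 1`, are in `P` -/
def IP {ι : Type} (P : Set (ι → ℝ)) (hu : ∀ x ∈ P, ∀ y, x ≤ y → y ∈ P) (k : ℕ) :
    Ideal (MvPolynomial ι ℚ) where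
  carrier := {f | ∀ p ∈ f.support, (fun i => (p i : ℝ) / ((k : ℝ) + 1)) ∈ P}
  zero_mem' := by simp
  add_mem' := by
    classical
    intro f g hf hg p hp
    rcases Finset.mem_union.1 (MvPolynomial.support_add hp) with h | h
    · exact hf p h
    · exact hg p h
  smul_mem' := by
    classical
    intro c f hf p hp
    rw [smul_eq_mul] at hp
    obtain ⟨q, hq, r, hr, rfl⟩ := Finset.mem_add.1 (MvPolynomial.support_mul c f hp)
    refine hu _ (hf r hr) _ ?_
    intro i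
    have hk : (0 : ℝ) < (k : ℝ) + 1 := by positivity
    have h0 : (0 : ℝ) ≤ (q i : ℝ) := Nat.cast_nonneg _
    show (r i : ℝ) / ((k : ℝ) + 1) ≤ (((q + r) i : ℕ) : ℝ) / ((k : ℝ) + 1)
    apply div_le_div_of_nonneg_right _ hk.le
    rw [Finsupp.add_apply, Nat.cast_add]
    linarith

theorem mem_IP {ι : Type} (P : Set (ι → ℝ)) (hu : ∀ x ∈ P, ∀ y, x ≤ y → y ∈ P) (k : ℕ)
    (f : MvPolynomial ι ℚ) :
    f ∈ IP P hu k ↔ ∀ p ∈ f.support, (fun i => (p i : ℝ) / ((k : ℝ) + 1)) ∈ P := Iff.rfl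

/-- exponents of the elements of a power -/
theorem supp_pow {ι : Type} [Fintype ι] [DecidableEq ι] (H : ι → MvPolynomial ι ℚ)
    (P : Set (ι → ℝ)) (hc : Convex ℝ P) (hu : ∀ x ∈ P, ∀ y, x ≤ y → y ∈ P)
    (hH : ∀ j, ∀ p ∈ (H j).support, (fun i => (p i : ℝ)) ∈ P) (k : ℕ) :
    idl H ^ (k + 1) ≤ IP P hu k := by
  have h1 : idl H ≤ IP P hu 0 := by
    unfold idl
    rw [Ideal.span_le]
    rintro f ⟨j, rfl⟩
    show H j ∈ IP P hu 0
    rw [mem_IP]
    intro p hp
    have h := hH j p hp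
    simpa using h
  induction k with
  | zero => simpa using h1
  | succ k ih =>
    rw [pow_succ, Ideal.mul_le]
    intro r hr s hs
    rw [mem_IP]
    intro p hp
    obtain ⟨q, hq, q', hq', rfl⟩ := Finset.mem_add.1 (MvPolynomial.support_mul r s hp)
    have hq1 := (mem_IP P hu k r).1 (ih hr) q hq
    have hq2 := (mem_IP P hu 0 s).1 (h1 hs) q' hq'
    have hk : (0 : ℝ) < (k : ℝ) + 1 := by positivity
    have hk2 : (0 : ℝ) < ((k + 1 : ℕ) : ℝ) + 1 := by positivity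
    have h := hc hq1 hq2 (a := ((k : ℝ) + 1) / (((k + 1 : ℕ) : ℝ) + 1))
      (b := 1 / (((k + 1 : ℕ) : ℝ) + 1)) (by positivity) (by positivity)
      (by
        rw [← add_div]
        rw [div_eq_one_iff_eq hk2.ne']
        push_cast
        ring)
    convert h using 1
    funext i
    simp only [Pi.add_apply, Pi.smul_apply, smul_eq_mul, Finsupp.add_apply]
    push_cast
    field_simp
    ring

/-- the number of the integral points under the diagram -/
theorem count_le (hPW : S_PW) (hLC : S_LC) {ι : Type} [Fintype ι] [DecidableEq ι]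
    (H : ι → MvPolynomial ι ℚ) (P : Set (ι → ℝ)) (n : ℕ) (hc : Convex ℝ P)
    (hu : ∀ x ∈ P, ∀ y, x ≤ y → y ∈ P)
    (hH : ∀ j, ∀ p ∈ (H j).support, (fun i => (p i : ℝ)) ∈ P) (hn : ∀ M, dq (idl H) M ≤ n)
    (k : ℕ) (F : Finset (ι → ℕ)) (hF : ∀ p ∈ F, (fun i => (p i : ℝ) / ((k : ℝ) + 1)) ∉ P) :
    F.card ≤ (k + Fintype.card ι).choose (Fintype.card ι) * n := by
  have h1 := hLC ι (idl H ^ (k + 1)) {p | (fun i => (p i : ℝ) / ((k : ℝ) + 1)) ∈ P}
    ((F.sup fun p => ∑ i, p i) + 1) F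
    (fun f hf p hp => (mem_IP P hu k f).1 (supp_pow H P hc hu hH k hf) p hp)
    (fun p hp => ⟨hF p hp, Nat.lt_succ_of_le (Finset.le_sup (f := fun p => ∑ i, p i) hp)⟩)
  have h2 := hPW ι H ((F.sup fun p => ∑ i, p i) + 1) (k + 1)
  have h3 : k + 1 + Fintype.card ι - 1 = k + Fintype.card ι := by omega
  rw [h3] at h2
  exact h1.trans (h2.trans (Nat.mul_le_mul_left _ (hn _)))

/-- the volume of the scaled set -/
theorem vol_le (hPW : S_PW) (hLC : S_LC) {ι : Type} [Fintype ι] [DecidableEq ι]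
    (H : ι → MvPolynomial ι ℚ) (P : Set (ι → ℝ)) (n : ℕ) (hc : Convex ℝ P)
    (hu : ∀ x ∈ P, ∀ y, x ≤ y → y ∈ P)
    (hH : ∀ j, ∀ p ∈ (H j).support, (fun i => (p i : ℝ)) ∈ P) (hn : ∀ M, dq (idl H) M ≤ n)
    (k : ℕ) :
    ENNReal.ofReal (((k : ℝ) + 1) ^ Fintype.card ι) * volume {x : ι → ℝ | 0 ≤ x ∧ x ∉ P} ≤
      (((k + Fintype.card ι).choose (Fintype.card ι) * n : ℕ) : ENNReal) := by
  set B : ℕ := (k + Fintype.card ι).choose (Fintype.card ι) * n with hB
  set S : Set (ι → ℕ) := {p | (fun i => (p i : ℝ) / ((k : ℝ) + 1)) ∉ P} with hS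
  have hk : (0 : ℝ) < (k : ℝ) + 1 := by positivity
  have hfin : S.Finite := by
    by_contra hinf
    obtain ⟨F, hF, hFc⟩ := Set.Infinite.exists_subset_card_eq hinf (B + 1)
    have := count_le hPW hLC H P n hc hu hH hn k F (fun p hp => hF hp)
    omega
  have hcard : hfin.toFinset.card ≤ B :=
    count_le hPW hLC H P n hc hu hH hn k hfin.toFinset (fun p hp => hfin.mem_toFinset.1 hp)
  let cube : (ι → ℕ) → Set (ι → ℝ) := fun p =>
    Set.pi Set.univ fun i => Set.Ico (p i : ℝ) ((p i : ℝ) + 1)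
  have hcube : ∀ p, volume (cube p) = 1 := by
    intro p
    have h := Real.volume_pi_Ico (a := fun i => (p i : ℝ)) (b := fun i => (p i : ℝ) + 1)
    show volume (Set.pi Set.univ fun i => Set.Ico (p i : ℝ) ((p i : ℝ) + 1)) = 1
    rw [h]
    simp
  have hcov : (((k : ℝ) + 1) • {x : ι → ℝ | 0 ≤ x ∧ x ∉ P}) ⊆
      ⋃ p ∈ hfin.toFinset, cube p := by
    rintro _ ⟨x, ⟨hx0, hxP⟩, rfl⟩
    simp only [Set.mem_iUnion]
    refine ⟨fun i => ⌊((k : ℝ) + 1) * x i⌋₊, ?_, ?_⟩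
    · rw [hfin.mem_toFinset]
      intro hmem
      refine hxP (hu _ hmem x ?_)
      intro i
      have h0 : 0 ≤ ((k : ℝ) + 1) * x i := mul_nonneg hk.le (hx0 i)
      show (⌊((k : ℝ) + 1) * x i⌋₊ : ℝ) / ((k : ℝ) + 1) ≤ x i
      rw [div_le_iff₀ hk]
      have := Nat.floor_le h0
      linarith
    · intro i _
      have h0 : 0 ≤ ((k : ℝ) + 1) * x i := mul_nonneg hk.le (hx0 i)
      show ((k : ℝ) + 1) * x i ∈ Set.Ico (⌊((k : ℝ) + 1) * x i⌋₊ : ℝ)
        ((⌊((k : ℝ) + 1) * x i⌋₊ : ℝ) + 1)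
      exact ⟨Nat.floor_le h0, Nat.lt_floor_add_one _⟩
  have hvol : volume (((k : ℝ) + 1) • {x : ι → ℝ | 0 ≤ x ∧ x ∉ P}) =
      ENNReal.ofReal (((k : ℝ) + 1) ^ Fintype.card ι) * volume {x : ι → ℝ | 0 ≤ x ∧ x ∉ P} := by
    rw [Measure.addHaar_smul, Module.finrank_fintype_fun_eq_card, abs_of_nonneg (by positivity)]
  rw [← hvol]
  calc volume (((k : ℝ) + 1) • {x : ι → ℝ | 0 ≤ x ∧ x ∉ P})
      ≤ volume (⋃ p ∈ hfin.toFinset, cube p) := measure_mono hcov
    _ ≤ ∑ p ∈ hfin.toFinset, volume (cube p) := measure_biUnion_finset_le _ _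
    _ = (hfin.toFinset.card : ENNReal) := by simp [hcube]
    _ ≤ (B : ENNReal) := by exact_mod_cast hcard

theorem t (hPW : S_PW) (hLC : S_LC) : S_F2 := by
  intro ι _ _ H P n hc hu hH hn
  set N := Fintype.card ι with hN
  set W : ENNReal := volume {x : ι → ℝ | 0 ≤ x ∧ x ∉ P} with hW
  have h0 := fun k => vol_le hPW hLC H P n hc hu hH hn k
  have hWtop : W ≠ ⊤ := by
    have h := h0 0
    intro htop
    rw [← hW, htop] at h
    rw [ENNReal.mul_top (by simp)] at h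
    exact (ENNReal.natCast_ne_top _) (top_le_iff.1 h)
  have h1 : ∀ k : ℕ, ((k : ℝ) + 1) ^ N * W.toReal ≤ (((k + N).choose N * n : ℕ) : ℝ) := by
    intro k
    have h := ENNReal.toReal_mono (ENNReal.natCast_ne_top _) (h0 k)
    rw [ENNReal.toReal_mul, ENNReal.toReal_ofReal (by positivity), ENNReal.toReal_natCast] at h
    exact h
  have h2 : ∀ k : ℕ, (N.factorial : ℝ) * W.toReal ≤ (((k : ℝ) + N) / ((k : ℝ) + 1)) ^ N * n := by
    intro k
    have hk : (0 : ℝ) < ((k : ℝ) + 1) ^ N := by positivity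
    have ha : N.factorial * (k + N).choose N ≤ (k + N) ^ N := by
      rw [← Nat.ascFactorial_eq_factorial_mul_choose]
      exact Nat.ascFactorial_le_pow_add k N
    have ha' : (N.factorial : ℝ) * ((k + N).choose N : ℝ) ≤ ((k : ℝ) + N) ^ N := by
      exact_mod_cast ha
    have h3 := h1 k
    push_cast at h3
    rw [div_pow, div_mul_eq_mul_div, le_div_iff₀ hk]
    have h4 : (N.factorial : ℝ) * (((k : ℝ) + 1) ^ N * W.toReal) ≤
        (N.factorial : ℝ) * (((k + N).choose N : ℝ) * n) :=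
      mul_le_mul_of_nonneg_left h3 (by positivity)
    have h5 : (N.factorial : ℝ) * ((k + N).choose N : ℝ) * n ≤ ((k : ℝ) + N) ^ N * n :=
      mul_le_mul_of_nonneg_right ha' (by positivity)
    nlinarith [h4, h5]
  have h3 : Tendsto (fun k : ℕ => (((k : ℝ) + N) / ((k : ℝ) + 1)) ^ N * n) atTop
      (𝓝 ((1 : ℝ) ^ N * n)) := by
    refine Tendsto.mul_const _ (Tendsto.pow ?_ N)
    have h4 : Tendsto (fun k : ℕ => 1 + ((N : ℝ) - 1) * (1 / ((k : ℝ) + 1))) atTop
        (𝓝 (1 + ((N : ℝ) - 1) * 0)) :=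
      tendsto_const_nhds.add (tendsto_const_nhds.mul tendsto_one_div_add_atTop_nhds_zero_nat)
    rw [mul_zero, add_zero] at h4
    refine h4.congr fun k => ?_
    have hk : ((k : ℝ) + 1) ≠ 0 := by positivity
    field_simp
    ring
  have h4 : (N.factorial : ℝ) * W.toReal ≤ n := by
    have h5 := ge_of_tendsto' h3 h2
    simpa using h5
  rw [← ENNReal.ofReal_toReal hWtop]
  have h6 : ((N.factorial : ℕ) : ENNReal) = ENNReal.ofReal (N.factorial : ℝ) := by
    rw [ENNReal.ofReal_natCast]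
  rw [h6, ← ENNReal.ofReal_mul (by positivity)]
  calc ENNReal.ofReal ((N.factorial : ℝ) * W.toReal) ≤ ENNReal.ofReal (n : ℝ) :=
        ENNReal.ofReal_le_ofReal h4
    _ = (n : ENNReal) := ENNReal.ofReal_natCast n

end Pool.Agent.Helper46.KH
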